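import Pool.Agent.P.MP_b91a16_ag.LY.Final

/-!
The strong motivic monodromy conjecture at the origin, with the local Bernstein-Sato polynomial,
for Lê-Yomdin surface singularities `f = f_d + f_(d+κ) + ⋯`, up to the candidate `-3/d` in the
resonant case below the log canonical threshold.
-/

namespace Pool.Agent.Results.MP_b91a16_ag.LeYomdin

open Pool.Agent.P.MP_b91a16_ag MvPolynomial

theorem result (f : MvPolynomial (Fin 3) ℂ) (d κ : ℕ) (hd : 3 ≤ d) (hκ : 1 ≤ κ)
    (hlow : ∀ j < d + κ, j ≠ d → homogeneousComponent j f = 0)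
    (hsq : Squarefree (homogeneousComponent d f))
    (hLY : ∀ x : Fin 3 → ℂ, x ≠ 0 → (∀ j, eval x (pderiv j (homogeneousComponent d f)) = 0) →
      eval x (homogeneousComponent (d + κ) f) ≠ 0) :
    ∃ S : Finset (ℕ × ℕ), InPoleRing (Linv ℂ) S (zeta f) ∧ ∀ p ∈ S, 0 < p.1 ∧ 0 < p.2 ∧
      ((∀ b : Polynomial ℂ, LocalBernsteinEq f b → b.eval (-(p.1 : ℂ) / (p.2 : ℂ)) = 0) ∨
        (p = (3, d) ∧ 3 < d ∧ ¬LY.LctGe f (3 / d) ∧
          LY.ExactVol (homogeneousComponent d f) (-3 / d))) :=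
  LY.main f d κ hd hκ hlow hsq hLY

end Pool.Agent.Results.MP_b91a16_ag.LeYomdin
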