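import Pool.Agent.P.MP_b91a16_ag.Ln.Main

/-!
The strong motivic monodromy conjecture, with the local Bernstein-Sato polynomial, at every point
`a` of a hypersurface `g = f_0(x) + y_1 f_1(x) + ⋯ + y_r f_r(x)` with `x = (x_1, x_2)`, and for
every polynomial `F` that a formal change of coordinates `φ` at the origin turns into a formal unit
`u` times the translate `G` of `g`.
-/

namespace Pool.Agent.Results.MP_b91a16_ag.LinearInY

open Pool.Agent.P.MP_b91a16_ag

theorem result (k : Type) [Field k] [CharZero k] [IsAlgClosed k] (r : ℕ)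
    (f₀ : MvPolynomial (Fin 2) k) (f : Fin r → MvPolynomial (Fin 2) k)
    (g : MvPolynomial (Fin (2 + r)) k)
    (hg : g = MvPolynomial.rename (Fin.castAdd r) f₀ +
      ∑ i, MvPolynomial.X (Fin.natAdd 2 i) * MvPolynomial.rename (Fin.castAdd r) (f i))
    (hg0 : g ≠ 0) (a : Fin (2 + r) → k) (ha : MvPolynomial.eval a g = 0)
    (G F : MvPolynomial (Fin (2 + r)) k)
    (hG : G = MvPolynomial.aeval (fun j => MvPolynomial.X j + MvPolynomial.C (a j)) g)
    (φ : Fin (2 + r) → MvPowerSeries (Fin (2 + r)) k) (u : MvPowerSeries (Fin (2 + r)) k)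
    (h0 : ∀ i, MvPowerSeries.constantCoeff (φ i) = 0)
    (h1 : (Matrix.of fun i j => MvPowerSeries.coeff (Finsupp.single j 1) (φ i)).det ≠ 0)
    (hu : MvPowerSeries.constantCoeff u ≠ 0)
    (h : MvPolynomial.aeval φ F = u * (G : MvPowerSeries (Fin (2 + r)) k)) :
    ∃ S : Finset (ℕ × ℕ), InPoleRing (Linv k) S (zeta F) ∧
      ∀ p ∈ S, 0 < p.1 ∧ 0 < p.2 ∧ ∀ b : Polynomial k,
        LocalBernsteinEq F b → b.eval (-(p.1 : k) / (p.2 : k)) = 0 :=
  Id.Pl.pull h0 h1 hu h fun c hc => hG ▸ Id.Ln.main f₀ f a c hc hg hg0 ha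

end Pool.Agent.Results.MP_b91a16_ag.LinearInY
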