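import Pool.Agent.P.MP_b91a16_ag.Qo.Final

/-!
The strong motivic monodromy conjecture at the origin of affine space, with the local
Bernstein-Sato polynomial, for every polynomial `f` in any number of variables that a formal change
of coordinates `φ` at the origin turns into a formal unit `u` times a quasi-ordinary polynomial `G`.
-/

namespace Pool.Agent.Results.MP_b91a16_ag.QuasiOrd

open Pool.Agent.P.MP_b91a16_ag

theorem result (k : Type) [Field k] [CharZero k] [IsAlgClosed k] (d : ℕ)
    (f G : MvPolynomial (Fin (d + 1)) k) (φ : Fin (d + 1) → MvPowerSeries (Fin (d + 1)) k)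
    (u : MvPowerSeries (Fin (d + 1)) k) (h0 : ∀ a, MvPowerSeries.constantCoeff (φ a) = 0)
    (h1 : (Matrix.of fun a j => MvPowerSeries.coeff (Finsupp.single j 1) (φ a)).det ≠ 0)
    (hu : MvPowerSeries.constantCoeff u ≠ 0) (hG : Qo.QuasiOrd G)
    (h : MvPolynomial.aeval φ f = u * (G : MvPowerSeries (Fin (d + 1)) k)) :
    ∃ S : Finset (ℕ × ℕ), InPoleRing (Linv k) S (zeta f) ∧
      ∀ p ∈ S, 0 < p.1 ∧ 0 < p.2 ∧ ∀ b : Polynomial k,
        LocalBernsteinEq f b → b.eval (-(p.1 : k) / (p.2 : k)) = 0 :=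
  Qo.pull h0 h1 hu hG h fun _ => Qo.main

end Pool.Agent.Results.MP_b91a16_ag.QuasiOrd
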