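import Pool.Agent.P.MP_b91a16_ag.SC.Final

/-!
The strong motivic monodromy conjecture at the origin of affine space, with the local
Bernstein-Sato polynomial, for every polynomial that is stably equivalent to a composition of a
Newton nondegenerate polynomial with norms of split simple Jordan algebras. The case `r = 0` is
the class of stably nondegenerate polynomials.
-/

namespace Pool.Agent.Results.MP_b91a16_ag.StablyComp

open Pool.Agent.P.MP_b91a16_ag

theorem result (k : Type) [Field k] [CharZero k] (n q r l : ℕ) (f : MvPolynomial (Fin n) k)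
    (hf : f ≠ 0) (h0 : MvPolynomial.eval 0 f = 0)
    (β : Fin r → Type) (P : ∀ i, MvPolynomial (β i) k) (hP : ∀ i, JB.IsNorm k (β i) (P i))
    (ε : (Σ i, β i) ⊕ Fin l ≃ Fin (n + q + q)) (F : MvPolynomial (Fin (r + l)) k) (hN : Nondeg F)
    (φ : Fin (n + q + q) → MvPowerSeries (Fin (n + q + q)) k)
    (e : MvPowerSeries (Fin (n + q + q)) k)
    (hφ0 : ∀ a, MvPowerSeries.constantCoeff (φ a) = 0)
    (hφ1 : (Matrix.of fun a j => MvPowerSeries.coeff (Finsupp.single j 1) (φ a)).det ≠ 0)
    (he : MvPowerSeries.constantCoeff e ≠ 0)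
    (h : MvPolynomial.aeval φ (St.stab f q) =
      e * (JB.comp P ε F : MvPowerSeries (Fin (n + q + q)) k)) :
    ∃ S : Finset (ℕ × ℕ), InPoleRing (Linv k) S (zeta f) ∧ ∀ p ∈ S, 0 < p.1 ∧ 0 < p.2 ∧
      ∀ b : Polynomial k, LocalBernsteinEq f b → b.eval (-(p.1 : k) / (p.2 : k)) = 0 :=
  SC.main f hf (by simpa using h0) P hP ε F hN φ e hφ0 hφ1 he h

end Pool.Agent.Results.MP_b91a16_ag.StablyComp
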